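import Mathlib

/-!
# Ordinal metric matching: no deterministic mechanism has constant max-distortion

We build, for every `K`, one profile on `n` agents and two pseudometrics `dA`, `dB`, both
consistent with it, in both of which the optimum is at most `N = K ^ 2`, and such that every
agent is at distance `K * N` from one fixed item `z` in `dA` or in `dB`.
Both pseudometrics are line metrics capped at `K * N`.
-/

namespace Pool.Agent.Results.MP_b944bf_lc.NoConstantDistortion

/-- A profile of rankings of `n` items by `n` agents: `σ a b` is the position of the item `b`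
in the ranking of the agent `a`, position `0` being the favourite item. -/
abbrev Profile (n : ℕ) : Type := Fin n → Equiv.Perm (Fin n)

/-- The pseudometric `d` on agents and items (`Sum.inl a` is the agent `a`, `Sum.inr b` is the
item `b`) is consistent with the profile `σ`: an agent never ranks an item before a strictly
nearer item. -/
def Consistent {n : ℕ} (σ : Profile n) (d : PseudoMetricSpace (Fin n ⊕ Fin n)) : Prop :=
  ∀ a b b' : Fin n, σ a b < σ a b' →
    d.dist (Sum.inl a) (Sum.inr b) ≤ d.dist (Sum.inl a) (Sum.inr b')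

/-- The max-cost of the perfect matching `M` (agent `a` receives the item `M a`). -/
noncomputable def cost {n : ℕ} (d : PseudoMetricSpace (Fin n ⊕ Fin n))
    (M : Equiv.Perm (Fin n)) : ℝ :=
  ⨆ a : Fin n, d.dist (Sum.inl a) (Sum.inr (M a))

/-- The least max-cost of a perfect matching. -/
noncomputable def opt {n : ℕ} (d : PseudoMetricSpace (Fin n ⊕ Fin n)) : ℝ :=
  ⨅ M : Equiv.Perm (Fin n), cost d M

/-- A deterministic matching mechanism: for each `n` it maps every profile to a perfect
matching. -/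
abbrev Mechanism : Type := ∀ n : ℕ, Profile n → Equiv.Perm (Fin n)

/-- The max-distortion of `f` on `n` agents is at most `α`. -/
def DistortionLE (f : Mechanism) (n : ℕ) (α : ℝ) : Prop :=
  ∀ (σ : Profile n) (d : PseudoMetricSpace (Fin n ⊕ Fin n)),
    Consistent σ d → cost d (f n σ) ≤ α * opt d

/-! ### The capped line metric -/

/-- The line metric of a position function, capped. -/
@[reducible] noncomputable def capped {X : Type*} (c : ℝ) (hc : 0 ≤ c) (pos : X → ℝ) :
    PseudoMetricSpace X where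
  dist x y := min c |pos x - pos y|
  dist_self x := by simp [hc]
  dist_comm x y := by rw [abs_sub_comm]
  dist_triangle x y z := by
    have h := abs_sub_le (pos x) (pos y) (pos z)
    have h1 := abs_nonneg (pos x - pos y)
    have h2 := abs_nonneg (pos y - pos z)
    rcases le_total c |pos x - pos y| with h3 | h3
    · rw [min_eq_left h3]
      have : 0 ≤ min c |pos y - pos z| := le_min hc h2
      linarith [min_le_left c |pos x - pos z|]
    · rcases le_total c |pos y - pos z| with h4 | h4
      · rw [min_eq_left h4]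
        have : 0 ≤ min c |pos x - pos y| := le_min hc h1
        linarith [min_le_left c |pos x - pos z|]
      · rw [min_eq_right h3, min_eq_right h4]
        exact (min_le_right _ _).trans h

/-! ### The stretching function -/

/-- Square of the positive part. -/
def phi (x : ℤ) : ℤ := (max x 0) ^ 2

lemma phi_nonneg (x : ℤ) : 0 ≤ phi x := sq_nonneg _

lemma phi_of_nonpos {x : ℤ} (h : x ≤ 0) : phi x = 0 := by simp [phi, max_eq_right h]

lemma phi_of_nonneg {x : ℤ} (h : 0 ≤ x) : phi x = x ^ 2 := by simp [phi, max_eq_left h]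

lemma phi_mono {x y : ℤ} (h : x ≤ y) : phi x ≤ phi y := by
  unfold phi
  exact pow_le_pow_left₀ (le_max_right _ _) (max_le_max h le_rfl) 2

lemma phi_convex (x u v : ℤ) (hv : 0 ≤ v) (huv : v ≤ u) :
    phi x - phi (x - v) ≤ phi (x + u) - phi x := by
  have h1 : phi (x + v) ≤ phi (x + u) := phi_mono (by linarith)
  have h2 : 2 * phi x ≤ phi (x + v) + phi (x - v) := by
    rcases le_total 0 x with hx | hx
    · rw [phi_of_nonneg hx, phi_of_nonneg (by linarith : (0 : ℤ) ≤ x + v)]
      rcases le_total 0 (x - v) with h | h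
      · rw [phi_of_nonneg h]; nlinarith
      · rw [phi_of_nonpos h]; nlinarith
    · rw [phi_of_nonpos hx]
      nlinarith [phi_nonneg (x + v), phi_nonneg (x - v)]
  linarith

lemma phi_second (x k : ℤ) (hk : 0 ≤ k) :
    phi (x + k) - phi x ≤ phi x - phi (x - k) + 2 * k ^ 2 := by
  rcases le_total 0 x with hx | hx
  · rw [phi_of_nonneg hx, phi_of_nonneg (by linarith : (0 : ℤ) ≤ x + k)]
    rcases le_total 0 (x - k) with h | h
    · rw [phi_of_nonneg h]; nlinarith
    · rw [phi_of_nonpos h]; nlinarith [sq_nonneg (x - k)]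
  · rw [phi_of_nonpos hx, phi_of_nonpos (by linarith : x - k ≤ 0)]
    rcases le_total 0 (x + k) with h | h
    · rw [phi_of_nonneg h]; nlinarith
    · rw [phi_of_nonpos h]; nlinarith

/-- The stretching function. -/
def g (K N t : ℤ) : ℤ := N * t + phi (t / 2 - K)

lemma g_odd (K N i : ℤ) : g K N (2 * i + 1) = N * (2 * i + 1) + phi (i - K) := by
  unfold g
  rw [show (2 * i + 1) / 2 = i by omega]

lemma g_even (K N a : ℤ) : g K N (2 * a) = N * (2 * a) + phi (a - K) := by
  unfold g
  rw [show (2 * a) / 2 = a by omega]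

lemma g_mono (K N : ℤ) {x y : ℤ} (h : x ≤ y) :
    N * (y - x) ≤ g K N y - g K N x := by
  unfold g
  have : phi (x / 2 - K) ≤ phi (y / 2 - K) := phi_mono (by omega)
  linarith

/-- The capped distance of two coordinates. -/
def D (K N x y : ℤ) : ℤ := min (K * N) |g K N x - g K N y|

/-- Coordinates `(p, q)` of an item in the first and in the second metric. -/
def Adm (K m p q : ℤ) : Prop :=
  (∃ a, -(m - 1) ≤ a ∧ a ≤ m - 1 ∧ p = 2 * a ∧ q = 2 * (-a)) ∨
    (p = -(2 * m) ∧ q = -(2 * m)) ∨ (p = -(2 * m + K) ∧ q = -(2 * m + K))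

lemma Adm.symm {K m p q : ℤ} (h : Adm K m p q) : Adm K m q p := by
  rcases h with ⟨a, h1, h2, h3, h4⟩ | ⟨h1, h2⟩ | ⟨h1, h2⟩
  · exact Or.inl ⟨-a, by linarith, by linarith, h4, by rw [h3]; ring⟩
  · exact Or.inr (Or.inl ⟨h2, h1⟩)
  · exact Or.inr (Or.inr ⟨h2, h1⟩)

lemma two_regular {K N i a b : ℤ} (hK : 1 ≤ K) (hN : N = K ^ 2) (hi : 0 ≤ i)
    (h1 : |g K N (2 * i + 1) - g K N (2 * a)| < K * N)
    (h2 : |g K N (2 * i + 1) - g K N (2 * a)| < |g K N (2 * i + 1) - g K N (2 * b)|)
    (h4 : |g K N (-(2 * i + 1)) - g K N (2 * (-b))| <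
      |g K N (-(2 * i + 1)) - g K N (2 * (-a))|) : False := by
  have hN0 : 0 < N := by rw [hN]; positivity
  have e0 : g K N (-(2 * i + 1)) = -(N * (2 * i + 1)) := by
    have : -(2 * i + 1) = 2 * (-i - 1) + 1 := by ring
    rw [this, g_odd, phi_of_nonpos (by linarith)]
    ring
  rw [e0] at h4
  rw [g_odd] at h1 h2
  simp only [g_even] at h1 h2 h4
  rcases le_or_gt a i with ha | ha
  · have pa : phi (a - K) ≤ phi (i - K) := phi_mono (by linarith)
    rw [abs_of_nonneg (by nlinarith)] at h1 h2
    have hsmall : 2 * (i - a) + 1 < K := by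
      by_contra hcon
      push Not at hcon
      nlinarith
    have pna : phi (-a - K) = 0 := phi_of_nonpos (by omega)
    rw [pna] at h4
    have e1 : |-(N * (2 * i + 1)) - (N * (2 * (-a)) + 0)| = N * (2 * (i - a) + 1) := by
      rw [show -(N * (2 * i + 1)) - (N * (2 * (-a)) + 0) = -(N * (2 * (i - a) + 1)) by ring,
        abs_neg, abs_of_nonneg (by nlinarith)]
    rw [e1] at h4
    rcases le_or_gt b i with hb | hb
    · have pb : phi (b - K) ≤ phi (i - K) := phi_mono (by linarith)
      rw [abs_of_nonneg (by nlinarith)] at h2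
      have e2 : |-(N * (2 * i + 1)) - (N * (2 * (-b)) + phi (-b - K))| =
          N * (2 * (i - b) + 1) + phi (-b - K) := by
        rw [show -(N * (2 * i + 1)) - (N * (2 * (-b)) + phi (-b - K)) =
          -(N * (2 * (i - b) + 1) + phi (-b - K)) by ring,
          abs_neg, abs_of_nonneg (by nlinarith [phi_nonneg (-b - K)])]
      rw [e2] at h4
      have hab : a < b := by
        have := phi_nonneg (-b - K)
        by_contra hcon
        push Not at hcon
        nlinarith
      have : phi (a - K) ≤ phi (b - K) := phi_mono (by linarith)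
      nlinarith
    · have pnb : phi (-b - K) = 0 := phi_of_nonpos (by omega)
      rw [pnb] at h4
      have e2 : |-(N * (2 * i + 1)) - (N * (2 * (-b)) + 0)| = N * (2 * (b - i) - 1) := by
        rw [show -(N * (2 * i + 1)) - (N * (2 * (-b)) + 0) = N * (2 * (b - i) - 1) by ring,
          abs_of_nonneg (by nlinarith)]
      rw [e2] at h4
      have hk : b - i ≤ i - a := by
        by_contra hcon
        push Not at hcon
        nlinarith
      have pb : phi (i - K) ≤ phi (b - K) := phi_mono (by linarith)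
      rw [show N * (2 * i + 1) + phi (i - K) - (N * (2 * b) + phi (b - K)) =
        -(N * (2 * (b - i) - 1) + (phi (b - K) - phi (i - K))) by ring, abs_neg,
        abs_of_nonneg (by nlinarith)] at h2
      have hs := phi_second (i - K) (b - i) (by linarith)
      rw [show i - K + (b - i) = b - K by ring] at hs
      have hs2 : phi (a - K) ≤ phi (i - K - (b - i)) := phi_mono (by linarith)
      have hk2 : (b - i) ^ 2 ≤ N := by
        rw [hN]
        exact pow_le_pow_left₀ (by linarith) (by linarith) 2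
      nlinarith
  · have pna : phi (-a - K) = 0 := phi_of_nonpos (by omega)
    have pa : phi (i - K) ≤ phi (a - K) := phi_mono (by linarith)
    rw [pna] at h4
    have e1 : |-(N * (2 * i + 1)) - (N * (2 * (-a)) + 0)| = N * (2 * (a - i) - 1) := by
      rw [show -(N * (2 * i + 1)) - (N * (2 * (-a)) + 0) = N * (2 * (a - i) - 1) by ring,
        abs_of_nonneg (by nlinarith)]
    rw [e1] at h4
    rw [show N * (2 * i + 1) + phi (i - K) - (N * (2 * a) + phi (a - K)) =
        -(N * (2 * (a - i) - 1) + (phi (a - K) - phi (i - K))) by ring, abs_neg,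
        abs_of_nonneg (by nlinarith)] at h2
    rcases le_or_gt b i with hb | hb
    · have pb : phi (b - K) ≤ phi (i - K) := phi_mono (by linarith)
      rw [abs_of_nonneg (by nlinarith)] at h2
      have e2 : |-(N * (2 * i + 1)) - (N * (2 * (-b)) + phi (-b - K))| =
          N * (2 * (i - b) + 1) + phi (-b - K) := by
        rw [show -(N * (2 * i + 1)) - (N * (2 * (-b)) + phi (-b - K)) =
          -(N * (2 * (i - b) + 1) + phi (-b - K)) by ring,
          abs_neg, abs_of_nonneg (by nlinarith [phi_nonneg (-b - K)])]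
      rw [e2] at h4
      have hk : i - b ≤ a - i := by
        have := phi_nonneg (-b - K)
        by_contra hcon
        push Not at hcon
        nlinarith
      have hc := phi_convex (i - K) (a - i) (i - b) (by linarith) hk
      rw [show i - K + (a - i) = a - K by ring, show i - K - (i - b) = b - K by ring] at hc
      have hk3 : i - b + 1 ≤ a - i - 1 ∨ a - i - 1 < i - b + 1 := by omega
      have := phi_nonneg (-b - K)
      nlinarith
    · have pnb : phi (-b - K) = 0 := phi_of_nonpos (by omega)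
      rw [pnb] at h4
      have e2 : |-(N * (2 * i + 1)) - (N * (2 * (-b)) + 0)| = N * (2 * (b - i) - 1) := by
        rw [show -(N * (2 * i + 1)) - (N * (2 * (-b)) + 0) = N * (2 * (b - i) - 1) by ring,
          abs_of_nonneg (by nlinarith)]
      rw [e2] at h4
      have pb : phi (i - K) ≤ phi (b - K) := phi_mono (by linarith)
      rw [show N * (2 * i + 1) + phi (i - K) - (N * (2 * b) + phi (b - K)) =
        -(N * (2 * (b - i) - 1) + (phi (b - K) - phi (i - K))) by ring, abs_neg,
        abs_of_nonneg (by nlinarith)] at h2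
      have hba : b < a := by
        by_contra hcon
        push Not at hcon
        nlinarith
      have : phi (b - K) ≤ phi (a - K) := phi_mono (by linarith)
      nlinarith

lemma min_lt_min_iff_aux {c X Y : ℤ} (h : min c X < min c Y) : X < c ∧ X < Y := by
  omega

lemma abs_g_ge (K N : ℤ) {x y : ℤ} (h : y ≤ x) : N * (x - y) ≤ |g K N x - g K N y| :=
  (g_mono K N h).trans (le_abs_self _)

lemma no_inversion {K N m i p q p' q' : ℤ} (hK : 1 ≤ K) (hN : N = K ^ 2)
    (hm : m = K * N + 2 * K) (hi : 0 ≤ i) (him : i ≤ m - 1)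
    (h : Adm K m p q) (h' : Adm K m p' q') :
    ¬ (D K N (2 * i + 1) p < D K N (2 * i + 1) p' ∧
      D K N (-(2 * i + 1)) q' < D K N (-(2 * i + 1)) q) := by
  rintro ⟨hA, hB⟩
  have hN0 : 0 < N := by rw [hN]; positivity
  have hmK : 2 * K ≤ m := by nlinarith
  obtain ⟨h1, h2⟩ := min_lt_min_iff_aux hA
  obtain ⟨h3, h4⟩ := min_lt_min_iff_aux hB
  rcases h with ⟨a, ha1, ha2, rfl, rfl⟩ | ⟨rfl, rfl⟩ | ⟨rfl, rfl⟩
  · rcases h' with ⟨b, hb1, hb2, rfl, rfl⟩ | ⟨rfl, rfl⟩ | ⟨rfl, rfl⟩
    · exact two_regular hK hN hi h1 h2 h4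
    · -- the item `z`
      have e0 : g K N (-(2 * i + 1)) = -(N * (2 * i + 1)) := by
        have : -(2 * i + 1) = 2 * (-i - 1) + 1 := by ring
        rw [this, g_odd, phi_of_nonpos (by linarith)]
        ring
      have e3 : g K N (-(2 * m)) = -(N * (2 * m)) := by
        have : -(2 * m) = 2 * (-m) := by ring
        rw [this, g_even, phi_of_nonpos (by linarith)]
        ring
      rw [e0, e3] at h3 h4
      rw [g_odd, g_even] at h1
      rw [g_even] at h4
      rw [show -(N * (2 * i + 1)) - -(N * (2 * m)) = N * (2 * (m - i) - 1) by ring,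
        abs_of_nonneg (by nlinarith)] at h3 h4
      have hmi : 2 * (m - i) - 1 < K := by
        by_contra hcon
        push Not at hcon
        nlinarith
      rcases le_or_gt a i with ha | ha
      · have pa : phi (a - K) ≤ phi (i - K) := phi_mono (by linarith)
        rw [abs_of_nonneg (by nlinarith)] at h1
        have hsmall : 2 * (i - a) + 1 < K := by
          by_contra hcon
          push Not at hcon
          nlinarith
        have pna : phi (-a - K) = 0 := phi_of_nonpos (by omega)
        rw [pna] at h4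
        have e1 : |-(N * (2 * i + 1)) - (N * (2 * (-a)) + 0)| = N * (2 * (i - a) + 1) := by
          rw [show -(N * (2 * i + 1)) - (N * (2 * (-a)) + 0) = -(N * (2 * (i - a) + 1)) by ring,
            abs_neg, abs_of_nonneg (by nlinarith)]
        rw [e1] at h4
        have hk : m - i ≤ i - a := by
          by_contra hcon
          push Not at hcon
          nlinarith
        have hai : a ≤ i - 1 := by linarith
        have hp : phi (a - K) ≤ phi (i - 1 - K) := phi_mono (by linarith)
        have hKN : 0 ≤ K * N := by positivity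
        rw [phi_of_nonneg (by linarith : (0 : ℤ) ≤ i - 1 - K)] at hp
        rw [phi_of_nonneg (by linarith : (0 : ℤ) ≤ i - K)] at h1
        nlinarith
      · have pna : phi (-a - K) = 0 := phi_of_nonpos (by omega)
        rw [pna] at h4
        have e1 : |-(N * (2 * i + 1)) - (N * (2 * (-a)) + 0)| = N * (2 * (a - i) - 1) := by
          rw [show -(N * (2 * i + 1)) - (N * (2 * (-a)) + 0) = N * (2 * (a - i) - 1) by ring,
            abs_of_nonneg (by nlinarith)]
        rw [e1] at h4
        nlinarith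
    · have := abs_g_ge K N (show -(2 * m + K) ≤ -(2 * i + 1) by linarith)
      nlinarith
  · have := abs_g_ge K N (show -(2 * m) ≤ 2 * i + 1 by linarith)
    nlinarith
  · have := abs_g_ge K N (show -(2 * m + K) ≤ 2 * i + 1 by linarith)
    nlinarith

lemma D_far {K N x y : ℤ} (hN : 0 < N) (h : y + K ≤ x) (hK : 0 ≤ K) : D K N x y = K * N := by
  have := abs_g_ge K N (show y ≤ x by linarith)
  exact min_eq_left (by nlinarith)

lemma D_comm (K N x y : ℤ) : D K N x y = D K N y x := by
  unfold D
  rw [abs_sub_comm]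

lemma D_extra {K N m p q : ℤ} (hK : 1 ≤ K) (hN : 0 < N) (h : Adm K m p q) :
    D K N (-(2 * m + K)) p = D K N (-(2 * m + K)) q := by
  rcases h with ⟨a, h1, h2, rfl, rfl⟩ | ⟨rfl, rfl⟩ | ⟨rfl, rfl⟩
  · rw [D_comm K N _ (2 * a), D_comm K N _ (2 * (-a)), D_far hN (by linarith) (by linarith),
      D_far hN (by linarith) (by linarith)]
  · rfl
  · rfl

lemma D_near (K N i : ℤ) (hN : 0 ≤ N) : D K N (2 * i + 1) (2 * i) ≤ N := by
  refine (min_le_right _ _).trans ?_
  rw [g_odd, g_even, show N * (2 * i + 1) + phi (i - K) - (N * (2 * i) + phi (i - K)) = N by ring,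
    abs_of_nonneg hN]

lemma D_self_le (K N x : ℤ) (hN : 0 ≤ N) : D K N x x ≤ N := by
  refine (min_le_right _ _).trans ?_
  simpa using hN

/-! ### The instance -/

/-- Coordinates in the first metric. -/
def posA (K m : ℤ) (n : ℕ) : Fin n ⊕ Fin n → ℤ
  | Sum.inl r => if (r : ℤ) < 2 * m then 2 * (m - 1 - r) + 1 else -(2 * m + K)
  | Sum.inr r => if (r : ℤ) < 2 * m then 2 * (m - 1 - r) else -(2 * m + K)

/-- Coordinates in the second metric. -/
def posB (K m : ℤ) (n : ℕ) : Fin n ⊕ Fin n → ℤ
  | Sum.inl r => if (r : ℤ) < 2 * m then 2 * (r - m) + 1 else -(2 * m + K)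
  | Sum.inr r => if (r : ℤ) < 2 * m - 1 then 2 * (r + 1 - m) else
      if (r : ℤ) = 2 * m - 1 then -(2 * m) else -(2 * m + K)

lemma adm_item (K m : ℤ) (n : ℕ) (r : Fin n) :
    Adm K m (posA K m n (Sum.inr r)) (posB K m n (Sum.inr r)) := by
  have hr : (0 : ℤ) ≤ (r : ℤ) := by positivity
  simp only [posA, posB]
  by_cases h1 : (r : ℤ) < 2 * m - 1
  · rw [if_pos (by linarith), if_pos h1]
    exact Or.inl ⟨m - 1 - r, by linarith, by linarith, rfl, by ring⟩
  · rw [if_neg h1]
    by_cases h2 : (r : ℤ) = 2 * m - 1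
    · rw [if_pos (by linarith), if_pos h2]
      exact Or.inr (Or.inl ⟨by rw [h2]; ring, rfl⟩)
    · rw [if_neg h2, if_neg (by omega)]
      exact Or.inr (Or.inr ⟨rfl, rfl⟩)

lemma noinv {K N m : ℤ} (hK : 1 ≤ K) (hN : N = K ^ 2) (hm : m = K * N + 2 * K) (n : ℕ)
    (a u v : Fin n) :
    ¬ (D K N (posA K m n (Sum.inl a)) (posA K m n (Sum.inr u)) <
        D K N (posA K m n (Sum.inl a)) (posA K m n (Sum.inr v)) ∧
      D K N (posB K m n (Sum.inl a)) (posB K m n (Sum.inr v)) <
        D K N (posB K m n (Sum.inl a)) (posB K m n (Sum.inr u))) := by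
  have ha : (0 : ℤ) ≤ (a : ℤ) := by positivity
  have hN0 : 0 < N := by rw [hN]; positivity
  by_cases h1 : (a : ℤ) < 2 * m
  · have eA : posA K m n (Sum.inl a) = 2 * (m - 1 - a) + 1 := by simp only [posA, if_pos h1]
    have eB : posB K m n (Sum.inl a) = 2 * (a - m) + 1 := by simp only [posB, if_pos h1]
    rw [eA, eB]
    by_cases h2 : (a : ℤ) < m
    · have := no_inversion (i := m - 1 - a) hK hN hm (by linarith) (by linarith)
        (adm_item K m n u) (adm_item K m n v)
      rw [show -(2 * (m - 1 - (a : ℤ)) + 1) = 2 * (a - m) + 1 by ring] at this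
      exact this
    · have := no_inversion (i := a - m) hK hN hm (by linarith) (by linarith)
        (adm_item K m n v).symm (adm_item K m n u).symm
      rw [show -(2 * ((a : ℤ) - m) + 1) = 2 * (m - 1 - a) + 1 by ring] at this
      rintro ⟨h3, h4⟩
      exact this ⟨h4, h3⟩
  · have eA : posA K m n (Sum.inl a) = -(2 * m + K) := by simp only [posA, if_neg h1]
    have eB : posB K m n (Sum.inl a) = -(2 * m + K) := by simp only [posB, if_neg h1]
    rw [eA, eB, D_extra hK hN0 (adm_item K m n u), D_extra hK hN0 (adm_item K m n v)]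
    rintro ⟨h3, h4⟩
    exact absurd h3 (not_lt.mpr h4.le)

/-- The ranking: by the sum of the two distances. -/
noncomputable def sig (K N m : ℤ) (n : ℕ) : Profile n := fun a =>
  (Tuple.sort (fun u : Fin n =>
    D K N (posA K m n (Sum.inl a)) (posA K m n (Sum.inr u)) +
      D K N (posB K m n (Sum.inl a)) (posB K m n (Sum.inr u)))).symm

lemma sig_key {K N m : ℤ} {n : ℕ} {a u v : Fin n} (h : sig K N m n a u < sig K N m n a v) :
    D K N (posA K m n (Sum.inl a)) (posA K m n (Sum.inr u)) +
      D K N (posB K m n (Sum.inl a)) (posB K m n (Sum.inr u)) ≤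
    D K N (posA K m n (Sum.inl a)) (posA K m n (Sum.inr v)) +
      D K N (posB K m n (Sum.inl a)) (posB K m n (Sum.inr v)) := by
  have := Tuple.monotone_sort (fun u : Fin n =>
    D K N (posA K m n (Sum.inl a)) (posA K m n (Sum.inr u)) +
      D K N (posB K m n (Sum.inl a)) (posB K m n (Sum.inr u))) h.le
  simpa [sig] using this

/-- The metric with coordinates `pos`. -/
@[reducible] noncomputable def met (K N : ℤ) (hK : 0 ≤ K * N) {n : ℕ} (pos : Fin n ⊕ Fin n → ℤ) :
    PseudoMetricSpace (Fin n ⊕ Fin n) :=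
  capped ((K * N : ℤ) : ℝ) (by exact_mod_cast hK) (fun x => (g K N (pos x) : ℝ))

lemma met_dist (K N : ℤ) (hK : 0 ≤ K * N) {n : ℕ} (pos : Fin n ⊕ Fin n → ℤ)
    (x y : Fin n ⊕ Fin n) : (met K N hK pos).dist x y = ((D K N (pos x) (pos y) : ℤ) : ℝ) := by
  change min ((K * N : ℤ) : ℝ) |(g K N (pos x) : ℝ) - (g K N (pos y) : ℝ)| = _
  unfold D
  push_cast
  rfl

lemma consistentA {K N m : ℤ} (hK : 1 ≤ K) (hN : N = K ^ 2) (hm : m = K * N + 2 * K)
    (hKN : 0 ≤ K * N) (n : ℕ) : Consistent (sig K N m n) (met K N hKN (posA K m n)) := by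
  intro a u v h
  have hk := sig_key h
  rw [met_dist, met_dist]
  have h1 := noinv hK hN hm n a v u
  by_contra hcon
  push Not at hcon
  have hcon' : D K N (posA K m n (Sum.inl a)) (posA K m n (Sum.inr v)) <
    D K N (posA K m n (Sum.inl a)) (posA K m n (Sum.inr u)) := by exact_mod_cast hcon
  apply h1
  exact ⟨hcon', by linarith⟩

lemma consistentB {K N m : ℤ} (hK : 1 ≤ K) (hN : N = K ^ 2) (hm : m = K * N + 2 * K)
    (hKN : 0 ≤ K * N) (n : ℕ) : Consistent (sig K N m n) (met K N hKN (posB K m n)) := by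
  intro a u v h
  have hk := sig_key h
  rw [met_dist, met_dist]
  have h1 := noinv hK hN hm n a u v
  by_contra hcon
  push Not at hcon
  have hcon' : D K N (posB K m n (Sum.inl a)) (posB K m n (Sum.inr v)) <
    D K N (posB K m n (Sum.inl a)) (posB K m n (Sum.inr u)) := by exact_mod_cast hcon
  apply h1
  exact ⟨by linarith, hcon'⟩

lemma cost_ge {n : ℕ} (d : PseudoMetricSpace (Fin n ⊕ Fin n)) (M : Equiv.Perm (Fin n))
    (a : Fin n) : d.dist (Sum.inl a) (Sum.inr (M a)) ≤ cost d M :=
  le_ciSup (f := fun a : Fin n => d.dist (Sum.inl a) (Sum.inr (M a)))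
    (Set.finite_range _).bddAbove a

lemma opt_le {n : ℕ} (d : PseudoMetricSpace (Fin n ⊕ Fin n)) (M : Equiv.Perm (Fin n))
    {c : ℝ} (hn : 0 < n) (h : ∀ a, d.dist (Sum.inl a) (Sum.inr (M a)) ≤ c) : opt d ≤ c := by
  have : Nonempty (Fin n) := ⟨⟨0, hn⟩⟩
  refine (ciInf_le (Set.finite_range _).bddBelow M).trans ?_
  exact ciSup_le h

lemma opt_nonneg {n : ℕ} (d : PseudoMetricSpace (Fin n ⊕ Fin n)) : 0 ≤ opt d := by
  refine Real.iInf_nonneg fun M => Real.iSup_nonneg fun a => ?_
  exact @dist_nonneg _ d _ _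

/-- The cyclic shift of the first `2 m` elements. -/
def shift (n m : ℕ) (hm : 1 ≤ m) (hn : 2 * m ≤ n) : Equiv.Perm (Fin n) where
  toFun r := if h0 : (r : ℕ) = 0 then ⟨2 * m - 1, by omega⟩ else
    if (r : ℕ) < 2 * m then ⟨r - 1, by omega⟩ else r
  invFun r := if h0 : (r : ℕ) = 2 * m - 1 then ⟨0, by omega⟩ else
    if h1 : (r : ℕ) < 2 * m then ⟨r + 1, by omega⟩ else r
  left_inv r := by
    by_cases h0 : (r : ℕ) = 0
    · ext; simp [h0]
    · by_cases h1 : (r : ℕ) < 2 * m
      · have h2 : (r : ℕ) - 1 ≠ 2 * m - 1 := by omega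
        have h3 : (r : ℕ) - 1 < 2 * m := by omega
        ext
        simp [h0, h1, h2, h3]
        omega
      · have h2 : (r : ℕ) ≠ 2 * m - 1 := by omega
        ext
        simp [h0, h1, h2]
  right_inv r := by
    by_cases h0 : (r : ℕ) = 2 * m - 1
    · ext; simp [h0]
    · by_cases h1 : (r : ℕ) < 2 * m
      · have h2 : (r : ℕ) + 1 < 2 * m := by omega
        ext
        simp [h0, h1, h2]
      · have h2 : (r : ℕ) ≠ 0 := by omega
        ext
        simp [h0, h1, h2]

lemma near_A {K N m : ℤ} (hN : 0 ≤ N) (n : ℕ) (r : Fin n) :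
    D K N (posA K m n (Sum.inl r)) (posA K m n (Sum.inr r)) ≤ N := by
  simp only [posA]
  by_cases h : (r : ℤ) < 2 * m
  · rw [if_pos h, if_pos h]
    exact D_near K N _ hN
  · rw [if_neg h, if_neg h]
    exact D_self_le K N _ hN

lemma near_B {K N : ℤ} (hN : 0 ≤ N) (n m : ℕ) (hm : 1 ≤ m) (hn : 2 * m ≤ n) (r : Fin n) :
    D K N (posB K m n (Sum.inl r)) (posB K m n (Sum.inr (shift n m hm hn r))) ≤ N := by
  by_cases h0 : (r : ℕ) = 0
  · have e1 : shift n m hm hn r = ⟨2 * m - 1, by omega⟩ := by simp [shift, h0]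
    rw [e1]
    simp only [posB]
    rw [if_pos (by omega), if_neg (by omega), if_pos (by omega)]
    have := D_near K N (-(m : ℤ)) hN
    rw [show (2 * (((r : ℕ) : ℤ) - (m : ℤ)) + 1) = 2 * (-(m : ℤ)) + 1 by rw [h0]; simp,
      show -(2 * (m : ℤ)) = 2 * (-(m : ℤ)) by ring]
    exact this
  · by_cases h1 : (r : ℕ) < 2 * m
    · have e1 : shift n m hm hn r = ⟨r - 1, by omega⟩ := by simp [shift, h0, h1]
      rw [e1]
      simp only [posB]
      rw [if_pos (by omega), if_pos (by omega)]
      have := D_near K N ((r : ℤ) - m) hN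
      rw [show (2 * ((((r : ℕ) - 1 : ℕ) : ℤ) + 1 - (m : ℤ))) = 2 * ((r : ℤ) - m) by
        push_cast [Nat.one_le_iff_ne_zero.mpr h0]; ring]
      exact this
    · have e1 : shift n m hm hn r = r := by simp [shift, h0, h1]
      rw [e1]
      simp only [posB]
      rw [if_neg (by omega), if_neg (by omega), if_neg (by omega)]
      exact D_self_le K N _ hN

/-- **Lower bound.** -/
theorem lower (K n : ℕ) (hK : 1 ≤ K) (hn : 6 * K ^ 3 ≤ n) (F : Profile n → Equiv.Perm (Fin n))
    (α : ℝ) (hα : α < K) :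
    ∃ (σ : Profile n) (d : PseudoMetricSpace (Fin n ⊕ Fin n)),
      Consistent σ d ∧ α * opt d < cost d (F σ) := by
  obtain ⟨m, hm⟩ : ∃ m : ℕ, m = K ^ 3 + 2 * K := ⟨_, rfl⟩
  obtain ⟨N, hN⟩ : ∃ N : ℤ, N = (K : ℤ) ^ 2 := ⟨_, rfl⟩
  have hK3 : K ≤ K ^ 3 := Nat.le_self_pow (by norm_num) K
  have hm1 : 1 ≤ m := by omega
  have hmn : 2 * m ≤ n := by omega
  have hKz : (1 : ℤ) ≤ (K : ℤ) := by exact_mod_cast hK
  have hmz : (m : ℤ) = (K : ℤ) * N + 2 * K := by
    rw [hm, hN]; push_cast; ring
  have hN0 : 0 < N := by rw [hN]; positivity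
  have hKN : 0 ≤ (K : ℤ) * N := by positivity
  have hmK : 2 * (K : ℤ) ≤ m := by nlinarith
  set σ : Profile n := sig K N m n with hσ
  obtain ⟨z, hz⟩ : ∃ z : Fin n, (z : ℕ) = 2 * m - 1 := ⟨⟨2 * m - 1, by omega⟩, rfl⟩
  have hzZ : (z : ℤ) = 2 * m - 1 := by omega
  have zA : posA K m n (Sum.inr z) = -(2 * (m : ℤ)) := by
    simp only [posA]
    rw [if_pos (by linarith), hzZ]; ring
  have zB : posB K m n (Sum.inr z) = -(2 * (m : ℤ)) := by
    simp only [posB]
    rw [if_neg (by linarith), if_pos hzZ]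
  obtain ⟨a, ha⟩ : ∃ a, F σ a = z := (F σ).surjective z
  have key : ∀ (d : PseudoMetricSpace (Fin n ⊕ Fin n)), opt d ≤ (N : ℝ) →
      ((K * N : ℤ) : ℝ) ≤ d.dist (Sum.inl a) (Sum.inr z) → α * opt d < cost d (F σ) := by
    intro d h1 h2
    have h3 := cost_ge d (F σ) a
    rw [ha] at h3
    have h4 := opt_nonneg d
    have hNr : (0 : ℝ) < N := by exact_mod_cast hN0
    have h5 : α * opt d < (K : ℝ) * N := by
      rcases le_or_gt α 0 with h | h
      · have : α * opt d ≤ 0 := mul_nonpos_of_nonpos_of_nonneg h h4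
        have : (0 : ℝ) < (K : ℝ) * N := by positivity
        linarith
      · calc α * opt d ≤ α * N := by nlinarith
          _ < (K : ℝ) * N := by nlinarith
    push_cast at h2
    linarith
  by_cases hcase : (a : ℕ) < 2 * m ∧ m ≤ (a : ℕ)
  · refine ⟨σ, met K N hKN (posB K m n), consistentB hKz hN hmz hKN n, key _ ?_ ?_⟩
    · refine opt_le _ (shift n m hm1 hmn) (by omega) fun r => ?_
      rw [met_dist]
      exact_mod_cast near_B hN0.le n m hm1 hmn r
    · rw [met_dist, zB]
      have : posB K m n (Sum.inl a) = 2 * ((a : ℤ) - m) + 1 := by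
        simp only [posB]
        rw [if_pos (by omega)]
      rw [this, D_far hN0 (by omega) (by linarith)]
  · refine ⟨σ, met K N hKN (posA K m n), consistentA hKz hN hmz hKN n, key _ ?_ ?_⟩
    · refine opt_le _ (Equiv.refl _) (by omega) fun r => ?_
      rw [met_dist]
      exact_mod_cast near_A hN0.le n r
    · rw [met_dist, zA]
      by_cases h2 : (a : ℤ) < 2 * m
      · have : posA K m n (Sum.inl a) = 2 * ((m : ℤ) - 1 - a) + 1 := by
          simp only [posA]
          rw [if_pos h2]
        rw [this, D_far hN0 (by omega) (by linarith)]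
      · have : posA K m n (Sum.inl a) = -(2 * (m : ℤ) + K) := by
          simp only [posA]
          rw [if_neg h2]
        rw [this, D_comm, D_far hN0 (by linarith) (by linarith)]

/-- **Main result.** No deterministic matching mechanism has max-distortion bounded by a
constant. Quantitatively, for every `K ≥ 1` and every `n ≥ 6 K ^ 3`, every deterministic
mechanism has max-distortion at least `K` on `n` agents. -/
theorem result :
    (¬ ∃ (f : Mechanism) (C : ℝ), ∀ n : ℕ, 1 ≤ n → DistortionLE f n C) ∧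
      ∀ (f : Mechanism) (K n : ℕ), 1 ≤ K → 6 * K ^ 3 ≤ n →
        ∀ α : ℝ, α < K → ¬ DistortionLE f n α := by
  have main : ∀ (f : Mechanism) (K n : ℕ), 1 ≤ K → 6 * K ^ 3 ≤ n →
      ∀ α : ℝ, α < K → ¬ DistortionLE f n α := by
    intro f K n hK hn α hα h
    obtain ⟨σ, d, h1, h2⟩ := lower K n hK hn (f n) α hα
    exact absurd (h σ d h1) (not_le.mpr h2)
  refine ⟨?_, main⟩
  rintro ⟨f, C, h⟩
  obtain ⟨K, hK⟩ := exists_nat_gt C
  refine main f (K + 1) (6 * (K + 1) ^ 3) (by omega) le_rfl C (by push_cast; linarith)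
    (h _ ?_)
  exact Nat.succ_le_of_lt (by positivity)

end Pool.Agent.Results.MP_b944bf_lc.NoConstantDistortion
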